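import Pool.Agent.Run7.h532.KS.Fin

/-!
# A nef and big class on a compact Kähler surface without smooth semipositive representatives

The surface is `X = Γ \ (ℍ × ℙ¹)`, where the torsion free cocompact Fuchsian group `Γ` acts
diagonally by Möbius transformations (a ruled surface over a curve of genus `g ≥ 2`), and the class
is `[C] + (2 g - 2) [F]`, where `C` is the image of the diagonal (`C² = 2 - 2 g`) and `F` is a fibre.
With `P = |w - z|²`, `Q = |w - z̄|²`, `y = Im z`, where `(z, w)` are the coordinates of `ℍ × ℂ`:

* the class is given by the potential `log (Q + P) - 2 log y`;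
* `log (Q + a P) - k log y` is plurisubharmonic if and only if `a (k - 2) ≥ 1`, so the class is nef
  (`a = 1 / ε`, `k = 2 + ε`) and `log (Q + P) - 5 log y` is the potential of a Kähler form;
* `1/2 log P + 1/2 log (Q + P) - 2 log y` is the potential of a Kähler current, so the class is big;
* if `u` is smooth and invariant and `ρ = log (Q + P) - 2 log y + u` is plurisubharmonic, then the
  Levi form of `ρ` on the diagonal vanishes in the direction of the diagonal, so this direction is
  in its kernel and `z ↦ ∂ρ/∂w (z, z)` is holomorphic; it is a quasimodular form of weight two like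
  `E₂`, which does not exist for a cocompact group, by Stokes' theorem on the curve `Γ \ ℍ`.
-/

set_option autoImplicit false

open scoped Manifold ContDiff

namespace Pool.Agent.Results.MP_4ff127_gt.NoSemipositive

open Pool.Agent.PNB (ClosedForm)
open Pool.Agent.Run7.h532.KS (IsNef HasSemipositive)

/-- There are a compact connected Hausdorff complex surface `X` with a Kähler form `κ` and a smooth
closed real `(1,1)`-form `θ` on `X` whose class is nef and big, such that no form `θ + dd^c u`, `u`
a smooth real function on `X`, is semipositive. -/
theorem result : ∃ (X : Type) (_ : TopologicalSpace X) (_ : T2Space X) (_ : CompactSpace X)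
    (_ : ConnectedSpace X) (_ : ChartedSpace (ℂ × ℂ) X) (_ : IsManifold 𝓘(ℂ, ℂ × ℂ) ω X)
    (κ θ : ClosedForm (ℂ × ℂ) X),
    κ.IsKahler ∧ IsNef θ κ ∧ θ.IsBig κ ∧ ¬ HasSemipositive θ :=
  Pool.Agent.Run7.h532.KS.main

end Pool.Agent.Results.MP_4ff127_gt.NoSemipositive
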